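import Pool.Agent.N226.DG.E

set_option autoImplicit false

/-!
# Diophantine graphs of maximum degree three

A finite graph is Diophantine if its vertices can be labelled injectively by positive integers in such
a way that two vertices are adjacent exactly if the product of their labels plus one is a square. We
show that every finite graph `G` of maximum degree at most three is Diophantine, provided that every
connected component of `G` which is `3`-regular contains two triangles with a common edge. In
particular this holds if no component is `3`-regular.

Idea of the proof. A new vertex with at most two neighbours gets its label in the Pell family of the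
two labels. If `c x + δ` (`δ = 0, 1`) is a square for three terms `x` of this family which form a
progression and are large, then `c` is one of the two labels; so by the theorem of van der Waerden
finitely many bad labels `c` can be avoided at the same time. The last four vertices `s, p, q, t` of a
component with two triangles `s p q`, `t p q` get the labels `4 x, x + b + v, x + b - v, 4 b` with
`4 b x + 1 = v ^ 2`, where `4 x` is in the Pell family of `b` and the label of the third neighbour of
`s`; here the squares are avoided by diophantine approximation of an irrational square root. Complete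
components on four vertices are added by a polynomial family of quadruples.
-/

namespace Pool.Agent.Results.MP_72d9c6_nt.TwoTrianglesWithCommonEdge

open Pool.Agent.N226.DG Finset

/-- Let `G` be a finite graph with all degrees at most three. Assume that whenever all the vertices of
the component of `v` have degree three, there are in this component two adjacent vertices `p, q` with
two distinct common neighbours `s, t`. Then `G` is Diophantine. -/
theorem result (V : Type) [Fintype V] (G : SimpleGraph V)
    (hdeg : ∀ v, (G.neighborSet v).ncard ≤ 3)
    (hdia : ∀ v, (∀ w, G.Reachable v w → (G.neighborSet w).ncard = 3) →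
      ∃ p q s t, G.Reachable v p ∧ G.Adj p q ∧ s ≠ t ∧ G.Adj p s ∧ G.Adj q s ∧ G.Adj p t ∧
        G.Adj q t) :
    ∃ f : V → ℕ, Function.Injective f ∧ (∀ v, 0 < f v) ∧
      ∀ u v : V, u ≠ v → (G.Adj u v ↔ IsSquare (f u * f v + 1)) := by
  classical
  have hnb : ∀ v, (univ.filter fun c => G.Adj c v).card = (G.neighborSet v).ncard := by
    intro v
    rw [← Set.ncard_coe_finset]
    congr 1
    ext c
    simp [G.adj_comm]
  obtain ⟨f, hf⟩ := main G (fun v => by rw [hnb]; exact hdeg v) (by
    intro S hne h3
    -- `S` is closed
    have full : ∀ v ∈ S, (S.filter fun c => G.Adj c v) = univ.filter fun c => G.Adj c v := by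
      intro v hv
      refine Finset.eq_of_subset_of_card_le (Finset.filter_subset_filter _ (Finset.subset_univ S)) ?_
      rw [h3 v hv, hnb]
      exact hdeg v
    have step : ∀ v ∈ S, ∀ w, G.Adj v w → w ∈ S := by
      intro v hv w hw
      have : w ∈ univ.filter fun c => G.Adj c v := by simp [hw.symm]
      rw [← full v hv] at this
      exact (Finset.mem_filter.mp this).1
    have reach : ∀ v ∈ S, ∀ w, G.Reachable v w → w ∈ S := by
      rintro v hv w ⟨W⟩
      induction W with
      | nil => exact hv
      | cons h _ ih => exact ih (step _ hv _ h)
    obtain ⟨v, hv⟩ := hne
    obtain ⟨p, q, s, t, hp, apq, hst, aps, aqs, apt, aqt⟩ := hdia v (fun w hw => by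
      rw [← hnb, ← full w (reach v hv w hw)]
      exact h3 w (reach v hv w hw))
    have pS := reach v hv p hp
    exact ⟨s, step p pS s aps, p, pS, q, step p pS q apq, t, step p pS t apt, hst, apq, aps.symm,
      aqs.symm, apt.symm, aqt.symm⟩) _ univ rfl
  obtain ⟨hpos, hadj⟩ := hf
  have hc : ∀ v, ((f v).toNat : ℤ) = f v := fun v => Int.toNat_of_nonneg (hpos v (mem_univ v)).le
  refine ⟨fun v => (f v).toNat, ?_, fun v => ?_, fun u v huv => ?_⟩
  · intro u v huv
    by_contra hne
    have e : f u = f v := by
      have h1 : (f u).toNat = (f v).toNat := huv
      rw [← hc u, ← hc v, h1]
    apply (hadj u (mem_univ u) v (mem_univ v) hne).1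
    rw [e]; exact ⟨_, rfl⟩
  · have := hpos v (mem_univ v)
    show 0 < (f v).toNat
    omega
  · rw [(hadj u (mem_univ u) v (mem_univ v) huv).2, ← Int.isSquare_natCast_iff]
    push_cast
    rw [hc u, hc v]

end Pool.Agent.Results.MP_72d9c6_nt.TwoTrianglesWithCommonEdge
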